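import Mathlib
import Pool.Agent.H29.ExpLatDefs
import Pool.Agent.H29.ExpLat2

set_option autoImplicit false

namespace Pool.Agent.Results.MP_a46e5c_co.Finite

open Pool.Agent.H29.ExpLat

theorem result : ∀ (d : ℕ) (α : ℝ), 1 < α → ∃ h : ℕ, HellyBound (lat d α) h := by
  intro d α hα
  classical
  obtain ⟨M, hM⟩ := pow_unbounded_of_one_lt (2 * ((d : ℝ) + 1)) hα
  exact ⟨_, fun F => Pool.Agent.H29.Hoffman.helly _ _ (fin_lat d hα)
    (fun P => by convert geom d M hα hM P) _ F rfl⟩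

end Pool.Agent.Results.MP_a46e5c_co.Finite
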